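import Mathlib

/-!
The direct sum of two copies of `U_{1,3}` has top h-number `4`, and no subfamily of its bases is
the set of bases of a matroid with top h-number `3`.
-/

set_option autoImplicit false

namespace Pool.Agent.Results.MP_35fef3_co.TopHGap

open Finset
open scoped Classical in
/-- The number `f_{i-1}(M)` of independent sets of `M` with exactly `i` elements. -/
noncomputable def fNum {α : Type} [Fintype α] (M : Matroid α) (i : ℕ) : ℕ :=
  (univ.filter fun I : Finset α => M.Indep (I : Set α) ∧ I.card = i).card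

/-- The number `h_d(M) = ∑_{i=0}^d (-1)^{d-i} f_{i-1}(M)`, for a matroid `M` of rank `d`. -/
noncomputable def topH {α : Type} [Fintype α] (M : Matroid α) (d : ℕ) : ℤ :=
  ∑ i ∈ range (d + 1), (-1) ^ (d - i) * (fNum M i : ℤ)

/-- The six element ground set: two rows of three elements. -/
abbrev G : Type := Fin 2 × Fin 3

/-- The direct sum of two copies of `U_{1,3}`. -/
def M₀ : Matroid G := (Matroid.freeOn (Set.univ : Set (Fin 2))).comap Prod.fst

lemma M₀_indep {I : Set G} : M₀.Indep I ↔ Set.InjOn Prod.fst I := by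
  simp [M₀, Matroid.comap_indep_iff]

lemma M₀_ground : M₀.E = Set.univ := by
  simp [M₀]

/-- the shape of the independent sets of a rank two matroid with one class in each row -/
def Shape (A B : Finset (Fin 3)) (I : Finset G) : Prop :=
  (∀ x ∈ I, x.1 = 0 → x.2 ∈ A) ∧ (∀ x ∈ I, x.1 = 1 → x.2 ∈ B) ∧
    ∀ x ∈ I, ∀ y ∈ I, x.1 = y.1 → x = y

instance (A B : Finset (Fin 3)) (I : Finset G) : Decidable (Shape A B I) := by
  unfold Shape
  have h1 : Decidable (∀ x ∈ I, x.1 = 0 → x.2 ∈ A) := by infer_instance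
  have h2 : Decidable (∀ x ∈ I, x.1 = 1 → x.2 ∈ B) := by infer_instance
  have h3 : Decidable (∀ x ∈ I, ∀ y ∈ I, x.1 = y.1 → x = y) := by infer_instance
  infer_instance

/-- the value of the top h-number computed from the two classes -/
def hVal (A B : Finset (Fin 3)) : ℤ :=
  ∑ i ∈ range 3, (-1) ^ (2 - i) *
    ((univ.filter fun I : Finset G => Shape A B I ∧ I.card = i).card : ℤ)

lemma hVal_ne : ∀ A B : Finset (Fin 3), hVal A B ≠ 3 := by
  decide +kernel

lemma hVal_univ : hVal univ univ = 4 := by
  decide +kernel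

lemma topH_eq {N : Matroid G} {A B : Finset (Fin 3)}
    (h : ∀ I : Finset G, N.Indep (I : Set G) ↔ Shape A B I) : topH N 2 = hVal A B := by
  unfold topH hVal fNum
  apply Finset.sum_congr rfl
  intro i _
  congr 2
  congr 1
  ext I
  simp [h I]

lemma pair_base {X : Set G} (h : M₀.IsBase X) :
    ∃ a b : Fin 3, X = {((0 : Fin 2), a), ((1 : Fin 2), b)} := by
  have hX := M₀_indep.1 h.indep
  have hex : ∀ i : Fin 2, ∃ a : Fin 3, (i, a) ∈ X := by
    intro i
    by_contra hcon
    push Not at hcon
    have h1 : M₀.Indep (insert (i, 0) X) := by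
      rw [M₀_indep, Set.injOn_insert (hcon 0)]
      refine ⟨hX, ?_⟩
      rintro ⟨⟨j, b⟩, hb, hj⟩
      simp only at hj
      subst hj
      exact hcon b hb
    have h2 := h.eq_of_subset_indep h1 (Set.subset_insert _ _)
    exact hcon 0 (h2 ▸ Set.mem_insert _ _)
  obtain ⟨a, ha⟩ := hex 0
  obtain ⟨b, hb⟩ := hex 1
  refine ⟨a, b, ?_⟩
  ext ⟨i, c⟩
  simp only [Set.mem_insert_iff, Set.mem_singleton_iff]
  constructor
  · intro hc
    fin_cases i
    · left
      exact hX hc ha rfl
    · right
      exact hX hc hb rfl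
  · rintro (h1 | h1)
    · rw [h1]; exact ha
    · rw [h1]; exact hb

lemma M₀_shape (I : Finset G) : M₀.Indep (I : Set G) ↔ Shape univ univ I := by
  rw [M₀_indep]
  simp only [Shape, Finset.mem_univ, implies_true, true_and]
  constructor
  · intro h x hx y hy hxy
    exact h hx hy hxy
  · intro h x hx y hy hxy
    exact h x hx y hy hxy

lemma exists_shape (N : Matroid G) (hN : ∀ X, N.IsBase X → M₀.IsBase X) :
    ∃ A B : Finset (Fin 3), ∀ I : Finset G, N.Indep (I : Set G) ↔ Shape A B I := by
  classical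
  let P : Fin 3 → Fin 3 → Prop := fun a b => N.IsBase {((0 : Fin 2), a), ((1 : Fin 2), b)}
  have hpair : ∀ X, N.IsBase X → ∃ a b, P a b ∧ X = {((0 : Fin 2), a), ((1 : Fin 2), b)} := by
    intro X hX
    obtain ⟨a, b, rfl⟩ := pair_base (hN X hX)
    exact ⟨a, b, hX, rfl⟩
  have hsame : ∀ (i : Fin 2) (a b : Fin 3), a ≠ b → ¬ N.Indep {(i, a), (i, b)} := by
    intro i a b hab hI
    obtain ⟨X, hX, hIX⟩ := hI.exists_isBase_superset
    have h1 := M₀_indep.1 (hN X hX).indep
    have := h1 (hIX (Set.mem_insert _ _)) (hIX (Set.mem_insert_of_mem _ (Set.mem_singleton _))) rfl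
    exact hab (Prod.ext_iff.1 this).2
  have hrect : ∀ a b a' b', P a b → P a' b' → P a b' := by
    intro a b a' b' h1 h2
    by_cases hbb : b = b'
    · subst hbb; exact h1
    have h3 : N.Indep {((1 : Fin 2), b')} := h2.indep.subset (by simp)
    have h4 : ({((1 : Fin 2), b')} : Set G).encard < ({((0 : Fin 2), a), ((1 : Fin 2), b)} : Set G).encard := by
      rw [Set.encard_singleton, Set.encard_pair (by simp)]
      norm_num
    obtain ⟨e, he, hi⟩ := h3.augment h1.indep h4
    simp only [Set.mem_sdiff, Set.mem_insert_iff, Set.mem_singleton_iff] at he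
    obtain ⟨he | he, -⟩ := he
    · subst he
      obtain ⟨X, hX, hIX⟩ := hi.exists_isBase_superset
      obtain ⟨c, d, -, rfl⟩ := hpair X hX
      have h5 : ((0 : Fin 2), a) ∈ ({((0 : Fin 2), c), ((1 : Fin 2), d)} : Set G) :=
        hIX (Set.mem_insert _ _)
      have h6 : ((1 : Fin 2), b') ∈ ({((0 : Fin 2), c), ((1 : Fin 2), d)} : Set G) :=
        hIX (Set.mem_insert_of_mem _ (Set.mem_singleton _))
      simp at h5 h6
      subst h5 h6
      exact hX
    · subst he
      exact (hsame 1 b b' hbb hi).elim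
  refine ⟨univ.filter fun a => ∃ b, P a b, univ.filter fun b => ∃ a, P a b, fun I => ?_⟩
  constructor
  · intro hI
    obtain ⟨X, hX, hIX⟩ := hI.exists_isBase_superset
    obtain ⟨a, b, hab, rfl⟩ := hpair X hX
    refine ⟨?_, ?_, ?_⟩
    · rintro ⟨i, c⟩ hx hi
      have := hIX hx
      simp only at hi
      subst hi
      simp at this
      subst this
      simp only [Finset.mem_filter, Finset.mem_univ, true_and]
      exact ⟨b, hab⟩
    · rintro ⟨i, c⟩ hx hi
      have := hIX hx
      simp only at hi
      subst hi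
      simp at this
      subst this
      simp only [Finset.mem_filter, Finset.mem_univ, true_and]
      exact ⟨a, hab⟩
    · rintro ⟨i, c⟩ hx ⟨j, d⟩ hy hij
      simp only at hij
      subst hij
      by_contra hne
      have hcd : c ≠ d := by
        rintro rfl
        exact hne rfl
      refine hsame i c d hcd (hI.subset ?_)
      rintro z (rfl | rfl)
      · exact hx
      · exact hy
  · rintro ⟨h1, h2, h3⟩
    -- a base containing everything
    by_cases hne : I.Nonempty
    · -- find the row representatives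
      obtain ⟨X₀, hX₀⟩ := N.exists_isBase
      obtain ⟨a₀, b₀, hab₀, -⟩ := hpair X₀ hX₀
      have hA : ∃ a b, P a b ∧ ∀ x ∈ I, x.1 = 0 → x.2 = a := by
        by_cases h : ∃ x ∈ I, x.1 = 0
        · obtain ⟨x, hx, hx0⟩ := h
          have := h1 x hx hx0
          simp only [Finset.mem_filter, Finset.mem_univ, true_and] at this
          obtain ⟨b, hb⟩ := this
          refine ⟨x.2, b, hb, fun y hy hy0 => ?_⟩
          rw [h3 y hy x hx (hy0.trans hx0.symm)]
        · push Not at h
          exact ⟨a₀, b₀, hab₀, fun x hx hx0 => (h x hx hx0).elim⟩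
      have hB : ∃ a b, P a b ∧ ∀ x ∈ I, x.1 = 1 → x.2 = b := by
        by_cases h : ∃ x ∈ I, x.1 = 1
        · obtain ⟨x, hx, hx0⟩ := h
          have := h2 x hx hx0
          simp only [Finset.mem_filter, Finset.mem_univ, true_and] at this
          obtain ⟨a, ha⟩ := this
          refine ⟨a, x.2, ha, fun y hy hy0 => ?_⟩
          rw [h3 y hy x hx (hy0.trans hx0.symm)]
        · push Not at h
          exact ⟨a₀, b₀, hab₀, fun x hx hx0 => (h x hx hx0).elim⟩
      obtain ⟨a, b, hab, ha⟩ := hA
      obtain ⟨a', b', hab', hb⟩ := hB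
      have h5 := hrect a b a' b' hab hab'
      refine h5.indep.subset ?_
      rintro ⟨i, c⟩ hx
      fin_cases i
      · left
        exact Prod.ext rfl (ha _ hx rfl)
      · right
        exact Prod.ext rfl (hb _ hx rfl)
    · rw [Finset.not_nonempty_iff_eq_empty] at hne
      subst hne
      simp

/-- There is a matroid `M` of rank `d` with `h_d(M) ≥ 1` such that no subfamily of the bases of
`M` is the set of bases of a matroid with top h-number `h_d(M) - 1`. -/
theorem result :
    ¬ ∀ (α : Type) [Fintype α] (M : Matroid α), M.E = Set.univ →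
      ∀ d : ℕ, M.eRank = d → 1 ≤ d → 1 ≤ topH M d →
        ∃ N : Matroid α, N.E = Set.univ ∧ (∀ X, N.IsBase X → M.IsBase X) ∧
          topH N d = topH M d - 1 := by
  intro hall
  have hr : M₀.eRank = (2 : ℕ) := by
    obtain ⟨X, hX⟩ := M₀.exists_isBase
    rw [← hX.encard_eq_eRank]
    obtain ⟨a, b, rfl⟩ := pair_base hX
    rw [Set.encard_pair (by simp)]
    rfl
  have h4 : topH M₀ 2 = 4 := by rw [topH_eq M₀_shape, hVal_univ]
  obtain ⟨N, -, hN, h⟩ := hall G M₀ M₀_ground 2 hr (by norm_num) (by rw [h4]; norm_num)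
  obtain ⟨A, B, hAB⟩ := exists_shape N hN
  rw [h4, topH_eq hAB] at h
  exact hVal_ne A B (by rw [h]; norm_num)

end Pool.Agent.Results.MP_35fef3_co.TopHGap
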